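import Pool.Agent.Helper24.KK.GoalsC

/-!
# KK-GAP: the weight of a fibre of the paired times
-/

set_option autoImplicit false

namespace Pool.Agent.Helper40.KK

open Pool.Agent.Helper24.KK
open Finset MeasureTheory Filter
open Pool.Agent.Helper49.RS

theorem gap : GAP := by
  intro a pX pY _ _ M hY hg b
  have hlog : 0 ≤ Real.log (M : ℝ) := Real.log_natCast_nonneg M
  set Fb := (range M).filter (fun k => bt pX pY k = b) with hFb
  have hi0 : ∀ n, 0 ≤ ind pX n := by
    intro n
    unfold ind
    split_ifs <;> norm_num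
  have hi1 : ∀ n, ind pX n ≤ 1 := by
    intro n
    unfold ind
    split_ifs <;> norm_num
  rcases Fb.eq_empty_or_nonempty with he | hne
  · rw [he, Finset.sum_empty]
    linarith
  · set i := Fb.min' hne with hi
    set j := Fb.max' hne with hj
    have him : i ∈ Fb := Finset.min'_mem _ _
    have hjm : j ∈ Fb := Finset.max'_mem _ _
    have hij : i ≤ j := Finset.min'_le _ _ hjm
    obtain ⟨hi2, hi3⟩ := Finset.mem_filter.1 him
    obtain ⟨hj2, hj3⟩ := Finset.mem_filter.1 hjm
    have hjM : j + 1 ≤ M := Finset.mem_range.1 hj2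
    have hcount : Nat.count pX i = Nat.count pX j := bt_inj hY (by rw [hi3, hj3])
    have hsub : Fb ⊆ Ico i (j + 1) := by
      intro k hk
      rw [Finset.mem_Ico]
      exact ⟨Finset.min'_le _ _ hk, Nat.lt_succ_of_le (Finset.le_max' _ _ hk)⟩
    have h1 : ∑ n ∈ Ico i (j + 1), ind pX n ≤ 1 := by
      rw [Finset.sum_Ico_succ_top hij, sum_ind pX i j hij, hcount]
      have := hi1 j
      linarith
    have h2 := hg.lo i (j + 1) (by omega) hjM
    calc ∑ k ∈ Fb, |ind pX k - prb a k| ≤ ∑ k ∈ Ico i (j + 1), |ind pX k - prb a k| :=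
          Finset.sum_le_sum_of_subset_of_nonneg hsub fun _ _ _ => abs_nonneg _
      _ ≤ ∑ k ∈ Ico i (j + 1), (ind pX k + prb a k) := by
          refine Finset.sum_le_sum fun k _ => ?_
          have e1 := hi0 k
          have e2 := prb_nonneg a k
          rw [abs_le]
          constructor <;> linarith
      _ = ∑ k ∈ Ico i (j + 1), ind pX k + ∑ k ∈ Ico i (j + 1), prb a k :=
          Finset.sum_add_distrib
      _ ≤ 3 + 16 * Real.log M := by linarith

end Pool.Agent.Helper40.KK
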